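import Mathlib
import Pool.Agent.X188.RieszP

/-! A Fredholm operator `T` has compact perturbations `T + K₁`, `T + K₂` forming a commuting
Taylor-invertible pair if and only if `index T = 0`. -/

set_option autoImplicit false
open scoped InnerProductSpace Topology ENNReal

namespace Pool.Agent.Results.MP_b56e9d_an.IndexObstruction

universe u

variable {H : Type u} [NormedAddCommGroup H] [InnerProductSpace ℂ H]

/-- `T` is Fredholm: closed range, finite-dimensional kernel and cokernel. -/
def IsFredholmOp (T : H →L[ℂ] H) : Prop :=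
  IsClosed (Set.range T) ∧ FiniteDimensional ℂ (LinearMap.ker (T : H →ₗ[ℂ] H)) ∧
    FiniteDimensional ℂ (H ⧸ LinearMap.range (T : H →ₗ[ℂ] H))

/-- The index `dim ker T - dim coker T`. -/
noncomputable def fredIndex (T : H →L[ℂ] H) : ℤ :=
  (Module.finrank ℂ (LinearMap.ker (T : H →ₗ[ℂ] H)) : ℤ) -
    (Module.finrank ℂ (H ⧸ LinearMap.range (T : H →ₗ[ℂ] H)) : ℤ)

/-- Taylor invertibility of the pair `(S₁, S₂)`: the Koszul complex
`0 → H → H ⊕ H → H → 0`, `D⁰ x = (S₁ x, S₂ x)`, `D¹ (x, y) = - S₂ x + S₁ y`, is exact. -/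
def KoszulExact (S₁ S₂ : H →L[ℂ] H) : Prop :=
  (∀ x, S₁ x = 0 → S₂ x = 0 → x = 0) ∧
  (∀ x y, -S₂ x + S₁ y = 0 → ∃ z, S₁ z = x ∧ S₂ z = y) ∧
  (∀ w, ∃ x y, -S₂ x + S₁ y = w)

/-- There are compact `K₁, K₂` such that `T + K₁` and `T + K₂` commute and form a Taylor
invertible pair. -/
def HasInvertiblePerturbation (T : H →L[ℂ] H) : Prop :=
  ∃ K₁ K₂ : H →L[ℂ] H, IsCompactOperator K₁ ∧ IsCompactOperator K₂ ∧
    (T + K₁) * (T + K₂) = (T + K₂) * (T + K₁) ∧ KoszulExact (T + K₁) (T + K₂)

open X188.Riesz in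
theorem char [CompleteSpace H] (T : H →L[ℂ] H) (hT : IsFredholmOp T) :
    HasInvertiblePerturbation T ↔ fredIndex T = 0 := by
  have hF : IsFred T := ⟨hT.1, hT.2.1, hT.2.2⟩
  constructor
  · rintro ⟨K₁, K₂, h1, h2, hc, e1, -, e3⟩
    have hi : Module.finrank ℂ (kr (T + K₁)) = Module.finrank ℂ (H ⧸ rg (T + K₁)) := by
      refine index_zero (K := K₂ - K₁) (hF.add_compact h1) (csub h2 h1) ?_ ?_ ?_
      · have : K₂ - K₁ = (T + K₂) - (T + K₁) := by abel
        rw [this, mul_sub, sub_mul, hc]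
      · intro x hx hx2
        refine e1 x hx ?_
        have : (T + K₂) x = (T + K₁) x + (K₂ - K₁) x := by
          simp only [ContinuousLinearMap.add_apply, ContinuousLinearMap.sub_apply]
          abel
        rw [this, hx, hx2, add_zero]
      · intro w
        obtain ⟨x, y, hxy⟩ := e3 w
        refine ⟨y - x, -x, ?_⟩
        rw [← hxy]
        simp only [ContinuousLinearMap.add_apply, ContinuousLinearMap.sub_apply, map_sub, map_neg]
        abel
    have := index_zero_of_perturb hF h1 hi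
    simp only [fredIndex]
    exact sub_eq_zero.2 (by exact_mod_cast this)
  · intro h0
    have h1 : Module.finrank ℂ (kr T) = Module.finrank ℂ (H ⧸ rg T) := by
      have := sub_eq_zero.1 h0
      exact_mod_cast this
    obtain ⟨G, hG, hb⟩ := exists_bij hF h1
    refine ⟨G, G, hG, hG, rfl, ?_, ?_, ?_⟩
    · intro x hx _
      exact hb.1 (by rw [hx, map_zero])
    · intro x y hxy
      obtain ⟨z, hz⟩ := hb.2 x
      refine ⟨z, hz, ?_⟩
      have h2 : (T + G) y = (T + G) x := by
        have := eq_neg_of_add_eq_zero_right hxy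
        rw [neg_neg] at this
        exact this
      rw [hz]
      exact (hb.1 h2).symm
    · intro w
      obtain ⟨y, hy⟩ := hb.2 w
      exact ⟨0, y, by rw [map_zero, neg_zero, zero_add, hy]⟩

/-- `ℓ²(ℕ)` -/
abbrev L2 : Type := lp (fun _ : ℕ => ℂ) 2

theorem mem_tail (x : L2) : Memℓp (fun n : ℕ => (x : ℕ → ℂ) (n + 1)) 2 := by
  have h := lp.memℓp x
  rw [memℓp_gen_iff (by norm_num)] at h ⊢
  exact (summable_nat_add_iff 1).2 h

theorem mem_cons (x : L2) : Memℓp (fun n : ℕ => Nat.casesOn (motive := fun _ => ℂ) n 0 (fun k => (x : ℕ → ℂ) k)) 2 := by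
  have h := lp.memℓp x
  rw [memℓp_gen_iff (by norm_num)] at h ⊢
  exact (summable_nat_add_iff 1).1 h

/-- The backward shift `(x₀, x₁, x₂, …) ↦ (x₁, x₂, …)` on `ℓ²(ℕ)`. -/
noncomputable def bshift : L2 →L[ℂ] L2 :=
  LinearMap.mkContinuous
    { toFun := fun x => ⟨fun n => (x : ℕ → ℂ) (n + 1), mem_tail x⟩
      map_add' := fun x y => by ext n; rfl
      map_smul' := fun c x => by ext n; rfl } 1 (by
    intro x
    rw [one_mul]
    have h := lp.memℓp x
    rw [memℓp_gen_iff (by norm_num)] at h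
    have h0 : (0 : ℝ) < (2 : ℝ≥0∞).toReal := by norm_num
    rw [← Real.rpow_le_rpow_iff (norm_nonneg _) (norm_nonneg _) h0, lp.norm_rpow_eq_tsum h0,
      lp.norm_rpow_eq_tsum h0, h.tsum_eq_zero_add]
    exact le_add_of_nonneg_left (by positivity))

theorem bshift_apply (x : L2) (n : ℕ) : (bshift x : ℕ → ℂ) n = (x : ℕ → ℂ) (n + 1) := rfl

theorem bshift_surj : Function.Surjective bshift := by
  intro y
  refine ⟨⟨_, mem_cons y⟩, ?_⟩
  ext n
  rfl

theorem bshift_ker : LinearMap.ker (bshift : L2 →ₗ[ℂ] L2) = Submodule.span ℂ {lp.single 2 0 (1 : ℂ)} := by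
  ext x
  rw [Submodule.mem_span_singleton]
  constructor
  · intro hx
    refine ⟨(x : ℕ → ℂ) 0, ?_⟩
    ext n
    rcases n with _ | n
    · simp
    · have h1 : bshift x = 0 := hx
      have h2 := bshift_apply x n
      rw [h1] at h2
      simp only [lp.coeFn_smul, Pi.smul_apply]
      rw [← h2]
      simp [lp.single_apply]
  · rintro ⟨c, rfl⟩
    change bshift _ = 0
    ext n
    rw [bshift_apply]
    simp [lp.single_apply]

theorem bshift_fred : IsFredholmOp bshift ∧ fredIndex bshift = 1 := by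
  have hr : LinearMap.range (bshift : L2 →ₗ[ℂ] L2) = ⊤ := LinearMap.range_eq_top.2 bshift_surj
  have hne : (lp.single 2 0 (1 : ℂ) : L2) ≠ 0 := by
    intro h
    have := congrArg (fun z : L2 => (z : ℕ → ℂ) 0) h
    simp at this
  have h2 : FiniteDimensional ℂ (L2 ⧸ LinearMap.range (bshift : L2 →ₗ[ℂ] L2)) := by
    rw [hr]; infer_instance
  refine ⟨⟨?_, ?_, h2⟩, ?_⟩
  · rw [Set.range_eq_univ.2 bshift_surj]
    exact isClosed_univ
  · rw [bshift_ker]; infer_instance
  · simp only [fredIndex]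
    rw [bshift_ker, finrank_span_singleton hne, hr]
    have : Module.finrank ℂ (L2 ⧸ (⊤ : Submodule ℂ L2)) = 0 := Module.finrank_zero_of_subsingleton
    rw [this]
    norm_num

/-- **Main result.**  (1) For every Fredholm operator `T` on a complex Hilbert space, there are
compact operators `K₁, K₂` with `T + K₁`, `T + K₂` commuting and forming a Taylor invertible pair
if and only if `index T = 0`.  (2) In particular, for the backward shift on `ℓ²(ℕ)`, a Fredholm
operator of index `1`, there are no such compact operators. -/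
theorem result :
    (∀ (H : Type u) [NormedAddCommGroup H] [InnerProductSpace ℂ H] [CompleteSpace H]
      (T : H →L[ℂ] H), IsFredholmOp T → (HasInvertiblePerturbation T ↔ fredIndex T = 0)) ∧
    (IsFredholmOp bshift ∧ fredIndex bshift = 1 ∧ ¬ HasInvertiblePerturbation bshift) := by
  refine ⟨fun H _ _ _ T hT => char T hT, bshift_fred.1, bshift_fred.2, ?_⟩
  rw [char bshift bshift_fred.1, bshift_fred.2]
  norm_num

end Pool.Agent.Results.MP_b56e9d_an.IndexObstruction
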